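import Mathlib
import Pool.Agent.H50.CMinA

set_option autoImplicit false

namespace Pool.Agent.Results.MP_35204b_gt.Minimal

open Pool.Agent.H50.CMinA

universe u v

theorem result (A : Type u) [CommGroup A] [TopologicalSpace A] [IsTopologicalGroup A] [T2Space A]
    (K : Type v) [Group K] [TopologicalSpace K] [IsTopologicalGroup K] [T2Space K]
    [CompactSpace K] :
    IsMinimal A → ∀ H : Subgroup (A × K), IsClosed (H : Set (A × K)) → IsMinimal H :=
  (both A K).1

end Pool.Agent.Results.MP_35204b_gt.Minimal
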